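import Pool.Agent.H46.GR.All

/-!
# MP_52ca01_co, Q1: the lower bound `r(K_{n,n}, C_{2k}, 3) ≥ c_k n` for every `k ≥ 4` and every `n`

Here `c_k = (3k-2) / (2(k-1)(2k-1))`.  Together with the known upper bound
`r(K_{n,n}, C_{2k}, 3) ≤ c_k n + o(n)` this gives `r(K_{n,n}, C_{2k}, 3) = c_k n + o(n)` for all
`k ≥ 4`.
-/

namespace Pool.Agent.Results.MP_52ca01_co.GenRamseyLower

/-- For every `k ≥ 4` and every `n`: `c_k n ≤ r(K_{n,n}, C_{2k}, 3)`. -/
theorem result (k n : ℕ) (hk : 4 ≤ k) :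
    ((3 * k - 2 : ℝ) / (2 * (k - 1) * (2 * k - 1))) * n ≤
      (Pool.Agent.H46.GR.genRamsey (completeBipartiteGraph (Fin n) (Fin n))
        (SimpleGraph.cycleGraph (2 * k)) 3 : ℝ) :=
  Pool.Agent.H46.GR.lower_bound k n hk

end Pool.Agent.Results.MP_52ca01_co.GenRamseyLower
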